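import Pool.Agent.Helper64.IG.Goals

/-! Packet EH: an embedding of decorated skeletons gives a morphism. -/

namespace Pool.Agent.Helper64.IG.PkEH

open Pool.Agent.Helper64.IG

theorem size_pos (σ : Tr Unit) : 0 < σ.size := by
  cases σ <;> simp [Tr.size]

theorem deco_congr {Y : Type*} (σ : Tr Unit) : ∀ (f g : ℕ → Y), (∀ n < σ.size, f n = g n) →
    σ.deco f = σ.deco g := by
  induction σ with
  | leaf k x => intro f g h; simp only [Tr.deco]; rw [h 0 (by simp [Tr.size])]
  | node k x a b iha ihb =>
    intro f g h
    simp only [Tr.size] at h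
    simp only [Tr.deco]
    rw [h 0 (by omega), iha _ (fun n => g (1 + n)) (fun n hn => h (1 + n) (by omega)),
      ihb _ (fun n => g (1 + a.size + n)) (fun n hn => h (1 + a.size + n) (by omega))]

theorem deco_map {Y Z : Type*} (σ : Tr Unit) (g : Y → Z) : ∀ f : ℕ → Y,
    (σ.deco f).map g = σ.deco (fun n => g (f n)) := by
  induction σ with
  | leaf k x => intro f; simp [Tr.deco, Tr.map]
  | node k x a b iha ihb => intro f; simp [Tr.deco, Tr.map, iha, ihb]

theorem lab_map {Y Z : Type*} (g : Y → Z) (t : Tr Y) : (t.map g).lab = t.lab := by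
  cases t <;> rfl

theorem lab_deco {Y : Type*} (t : Tr Unit) (g : ℕ → Y) : (t.deco g).lab = t.lab := by
  cases t <;> rfl

theorem dn_map {Y Z : Type*} (g : Y → Z) {k : ℕ} {t f : Tr Y} (h : Tr.Dn k t f) :
    Tr.Dn k (t.map g) (f.map g) := by
  induction h with
  | here f hf => exact Tr.Dn.here _ (by rw [lab_map]; exact hf)
  | left l x b hl _ ih => exact Tr.Dn.left _ _ _ hl ih
  | right l x a hl _ ih => exact Tr.Dn.right _ _ _ hl ih

theorem step_map {Y Z : Type*} (g : Y → Z) {t f : Tr Y} (h : Tr.Step t f) :
    Tr.Step (t.map g) (f.map g) := by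
  cases h with
  | left k x b h => exact Tr.Step.left _ _ _ (dn_map g h)
  | right k x a h => exact Tr.Step.right _ _ _ (dn_map g h)

theorem emb_map {Y Z : Type*} (g : Y → Z) {s t : Tr Y}
    (h : Tr.Emb (fun a b : Y => a = b) s t) :
    Tr.Emb (fun a b : Z => a = b) (s.map g) (t.map g) := by
  induction h with
  | leaf k x y h => exact Tr.Emb.leaf _ _ _ (congrArg g h)
  | node k x y a b c d h _ _ ih1 ih2 => exact Tr.Emb.node _ _ _ _ _ _ _ (congrArg g h) ih1 ih2
  | skip s t f h _ ih => exact Tr.Emb.skip _ _ _ (step_map g h) ih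

theorem dn_deco {Y Z : Type*} (k : ℕ) (τ : Tr Unit) : ∀ (m : ℕ → Y) (f : Tr Y),
    Tr.Dn k (τ.deco m) f → ∃ (τ' : Tr Unit) (o : ℕ), o + τ'.size ≤ τ.size ∧
      f = τ'.deco (fun n => m (o + n)) ∧
      ∀ g : ℕ → Z, Tr.Dn k (τ.deco g) (τ'.deco fun n => g (o + n)) := by
  induction τ with
  | leaf l x =>
    intro m f h
    simp only [Tr.deco] at h
    cases h with
    | here _ hf =>
      refine ⟨.leaf l x, 0, by simp, by simp [Tr.deco], fun g => ?_⟩
      simp only [Tr.deco, Nat.zero_add]
      exact Tr.Dn.here _ hf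
  | node l x a b iha ihb =>
    intro m f h
    simp only [Tr.deco] at h
    cases h with
    | here _ hf =>
      refine ⟨.node l x a b, 0, by simp, by simp [Tr.deco], fun g => ?_⟩
      simp only [Nat.zero_add]
      exact Tr.Dn.here _ hf
    | left _ _ _ hl h =>
      obtain ⟨τ', o, h1, h2, h3⟩ := iha _ _ h
      refine ⟨τ', 1 + o, by simp only [Tr.size]; omega, ?_, fun g => ?_⟩
      · rw [h2]
        exact deco_congr _ _ _ fun n _ => by rw [Nat.add_assoc]
      · simp only [Tr.deco]
        refine Tr.Dn.left _ _ _ hl ?_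
        have := h3 (fun n => g (1 + n))
        simp only [← Nat.add_assoc] at this
        exact this
    | right _ _ _ hl h =>
      obtain ⟨τ', o, h1, h2, h3⟩ := ihb _ _ h
      refine ⟨τ', 1 + a.size + o, by simp only [Tr.size]; omega, ?_, fun g => ?_⟩
      · rw [h2]
        exact deco_congr _ _ _ fun n _ => by rw [Nat.add_assoc (1 + a.size)]
      · simp only [Tr.deco]
        refine Tr.Dn.right _ _ _ hl ?_
        have := h3 (fun n => g (1 + a.size + n))
        simp only [← Nat.add_assoc] at this
        exact this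

theorem step_deco {Y Z : Type*} (τ : Tr Unit) (m : ℕ → Y) (f : Tr Y)
    (h : Tr.Step (τ.deco m) f) : ∃ (τ' : Tr Unit) (o : ℕ), o + τ'.size ≤ τ.size ∧
      f = τ'.deco (fun n => m (o + n)) ∧
      ∀ g : ℕ → Z, Tr.Step (τ.deco g) (τ'.deco fun n => g (o + n)) := by
  cases τ with
  | leaf l x => simp only [Tr.deco] at h; cases h
  | node l x a b =>
    simp only [Tr.deco] at h
    cases h with
    | left _ _ _ h =>
      obtain ⟨τ', o, h1, h2, h3⟩ := dn_deco (Z := Z) _ _ _ _ h
      refine ⟨τ', 1 + o, by simp only [Tr.size]; omega, ?_, fun g => ?_⟩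
      · rw [h2]
        exact deco_congr _ _ _ fun n _ => by rw [Nat.add_assoc]
      · simp only [Tr.deco]
        refine Tr.Step.left _ _ _ ?_
        have := h3 (fun n => g (1 + n))
        simp only [← Nat.add_assoc] at this
        exact this
    | right _ _ _ h =>
      obtain ⟨τ', o, h1, h2, h3⟩ := dn_deco (Z := Z) _ _ _ _ h
      refine ⟨τ', 1 + a.size + o, by simp only [Tr.size]; omega, ?_, fun g => ?_⟩
      · rw [h2]
        exact deco_congr _ _ _ fun n _ => by rw [Nat.add_assoc (1 + a.size)]
      · simp only [Tr.deco]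
        refine Tr.Step.right _ _ _ ?_
        have := h3 (fun n => g (1 + a.size + n))
        simp only [← Nat.add_assoc] at this
        exact this

theorem key {X Y : Type} (R : X → Y → Prop) {s : Tr X} {t : Tr Y} (h : Tr.Emb R s t) :
    ∀ (σ τ : Tr Unit) (m : ℕ → X) (m' : ℕ → Y), s = σ.deco m → t = τ.deco m' →
    ∃ φ : ℕ → ℕ, (∀ a < σ.size, φ a < τ.size ∧ R (m a) (m' (φ a))) ∧
      Tr.Emb (fun a b : ℕ => a = b) (σ.deco φ) (τ.deco id) := by
  induction h with
  | leaf k x y hxy =>
    intro σ τ m m' hs ht
    cases σ with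
    | node => simp [Tr.deco] at hs
    | leaf k1 u1 =>
      cases τ with
      | node => simp [Tr.deco] at ht
      | leaf k2 u2 =>
        simp only [Tr.deco, Tr.leaf.injEq] at hs ht
        obtain ⟨rfl, rfl⟩ := hs
        obtain ⟨rfl, rfl⟩ := ht
        refine ⟨fun _ => 0, ?_, ?_⟩
        · intro a ha
          simp only [Tr.size] at ha
          have : a = 0 := by omega
          subst this
          exact ⟨by simp [Tr.size], hxy⟩
        · simp only [Tr.deco, id]
          exact Tr.Emb.leaf _ _ _ rfl
  | node k x y a b c d hxy _ _ ih1 ih2 =>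
    intro σ τ m m' hs ht
    cases σ with
    | leaf => simp [Tr.deco] at hs
    | node k1 u1 a' b' =>
      cases τ with
      | leaf => simp [Tr.deco] at ht
      | node k2 u2 c' d' =>
        simp only [Tr.deco, Tr.node.injEq] at hs ht
        obtain ⟨rfl, rfl, ha, hb⟩ := hs
        obtain ⟨rfl, rfl, hc, hd⟩ := ht
        obtain ⟨φa, ha1, ha2⟩ := ih1 a' c' _ _ ha hc
        obtain ⟨φb, hb1, hb2⟩ := ih2 b' d' _ _ hb hd
        refine ⟨fun i => if i = 0 then 0 else if i < 1 + a'.size then 1 + φa (i - 1)
          else 1 + c'.size + φb (i - 1 - a'.size), ?_, ?_⟩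
        · intro i hi
          simp only [Tr.size] at hi ⊢
          by_cases h0 : i = 0
          · subst h0
            simp only [if_true]
            exact ⟨by omega, hxy⟩
          · by_cases h1 : i < 1 + a'.size
            · simp only [h0, h1, if_true, if_false]
              have h2 := ha1 (i - 1) (by omega)
              have h3 : 1 + (i - 1) = i := by omega
              rw [h3] at h2
              exact ⟨by omega, h2.2⟩
            · simp only [h0, h1, if_false]
              have h2 := hb1 (i - 1 - a'.size) (by omega)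
              have h3 : 1 + a'.size + (i - 1 - a'.size) = i := by omega
              rw [h3] at h2
              exact ⟨by omega, h2.2⟩
        · simp only [Tr.deco, id]
          refine Tr.Emb.node _ _ _ _ _ _ _ (by simp) ?_ ?_
          · have h1 := emb_map (fun n => 1 + n) ha2
            rw [deco_map, deco_map] at h1
            simp only [id] at h1
            convert h1 using 1
            refine deco_congr _ _ _ fun n hn => ?_
            have h2 : ¬ (1 + n = 0) := by omega
            have h3 : 1 + n < 1 + a'.size := by omega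
            simp only [h2, h3, if_true, if_false]
            congr 2; omega
          · have h1 := emb_map (fun n => 1 + c'.size + n) hb2
            rw [deco_map, deco_map] at h1
            simp only [id] at h1
            convert h1 using 1
            refine deco_congr _ _ _ fun n hn => ?_
            have h2 : ¬ (1 + a'.size + n = 0) := by omega
            have h3 : ¬ (1 + a'.size + n < 1 + a'.size) := by omega
            simp only [h2, h3, if_false]
            congr 2; omega
  | skip s t f hst _ ih =>
    intro σ τ m m' hs ht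
    subst ht
    obtain ⟨τ', o, h1, h2, h3⟩ := step_deco (Z := ℕ) _ _ _ hst
    obtain ⟨φ, hφ1, hφ2⟩ := ih σ τ' m _ hs h2
    refine ⟨fun a => o + φ a, ?_, ?_⟩
    · intro a ha
      have := hφ1 a ha
      have h5 : o + φ a < τ.size := by omega
      exact ⟨h5, this.2⟩
    · have h4 := emb_map (fun n => o + n) hφ2
      rw [deco_map, deco_map] at h4
      exact Tr.Emb.skip _ _ _ (h3 id) h4

theorem eh : G_EH := by
  intro X Y R σ τ m m' h
  obtain ⟨φ, h1, h2⟩ := key R h σ τ m m' rfl rfl
  refine ⟨fun a => ⟨φ a, (h1 a a.2).1⟩, ?_, fun a => (h1 a a.2).2⟩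
  show Tr.Emb (fun a b : ℕ => a = b) _ _
  have : σ.deco (ext fun a : Fin σ.size => (⟨φ a, (h1 a a.2).1⟩ : Fin τ.size)) = σ.deco φ := by
    refine deco_congr _ _ _ fun n hn => ?_
    simp [ext, hn]
  rw [this]
  exact h2

end Pool.Agent.Helper64.IG.PkEH
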