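import Pool.Agent.Helper64.IG.Goals

/-! Packet LD: existence of linked decompositions. -/

namespace Pool.Agent.Helper64.IG.PkLD

open Pool.Agent.Helper64.IG

/-- Successive minimisation. -/
def TT {α : Type*} (P : α → Prop) (f : ℕ → α → ℕ) : ℕ → α → Prop
  | 0, t => P t
  | j + 1, t => TT P f j t ∧ ∀ s, TT P f j s → f j t ≤ f j s

theorem TT_nonempty {α : Type*} (P : α → Prop) (f : ℕ → α → ℕ) (h : ∃ t, P t) :
    ∀ j, ∃ t, TT P f j t := by
  intro j
  induction j with
  | zero => exact h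
  | succ j ih =>
    classical
    have hex : ∃ n, ∃ t, TT P f j t ∧ f j t = n := by
      obtain ⟨t, ht⟩ := ih
      exact ⟨_, t, ht, rfl⟩
    obtain ⟨t, ht, hn⟩ := Nat.find_spec hex
    refine ⟨t, ht, fun s hs => ?_⟩
    rw [hn]
    exact Nat.find_min' hex ⟨s, hs, rfl⟩

theorem TT_anti {α : Type*} (P : α → Prop) (f : ℕ → α → ℕ) {i j : ℕ} (h : i ≤ j) (t : α)
    (ht : TT P f j t) : TT P f i t := by
  induction h with
  | refl => exact ht
  | step _ ih => exact ih ht.1

theorem exists_tree {E : Type} [DecidableEq E] (lam : Finset E → ℕ) (w : ℕ) {X : Finset E}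
    (h : Dec lam w X) : ∃ t : BT E, t.set = X ∧ t.Disj ∧ t.WLe lam w := by
  induction h with
  | single e he => exact ⟨.leaf e, rfl, trivial, he⟩
  | join A B hd _ _ hl iha ihb =>
    obtain ⟨a, ha1, ha2, ha3⟩ := iha
    obtain ⟨b, hb1, hb2, hb3⟩ := ihb
    refine ⟨.node a b, ?_, ⟨?_, ha2, hb2⟩, ?_, ha3, hb3⟩
    · simp [BT.set, ha1, hb1]
    · rw [ha1, hb1]; exact hd
    · rw [ha1, hb1]; exact hl

theorem ld (surg : G_SURG) : G_LD := by
  intro E _ _ lam w hsym hdec
  let P : BT E → Prop := fun t => t.set = Finset.univ ∧ t.Disj ∧ t.WLe lam w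
  let f : ℕ → BT E → ℕ := fun j t => BT.psi lam (w - j) 0 t
  obtain ⟨t, ht⟩ := TT_nonempty P f (exists_tree lam w hdec) w
  have hP : P t := TT_anti P f (Nat.zero_le w) t ht
  refine ⟨t, hP.1, hP.2.1, hP.2.2, ?_⟩
  by_contra hnl
  obtain ⟨t', μ, h1, h2, h3, h4, h5, h6⟩ := surg E lam w t hsym hP.2.1 hP.2.2 hnl
  have key : ∀ j, j + μ + 1 ≤ w → TT P f j t' := by
    intro j
    induction j with
    | zero => intro _; exact ⟨h1.trans hP.1, h2, h3⟩
    | succ j ih =>
      intro hj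
      refine ⟨ih (by omega), fun s hs => ?_⟩
      have h7 : TT P f (j + 1) t := TT_anti P f (by omega) t ht
      exact (h5 (w - j) (by omega)).trans (h7.2 s hs)
  have h8 := key (w - μ - 1) (by omega)
  have h9 : TT P f (w - μ - 1 + 1) t := TT_anti P f (by omega) t ht
  have h10 := h9.2 t' h8
  have h11 : w - (w - μ - 1) = μ + 1 := by omega
  simp only [f, h11] at h10
  omega

end Pool.Agent.Helper64.IG.PkLD
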